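import Pool.Agent.Helper43.LS.Defs

/-!
# LS-1: from a successor function to a symmetric chain decomposition
-/

set_option autoImplicit false

namespace Pool.LS

namespace NextAux

variable {m n : ℕ}

/-- Elements of `L(m,n)`. -/
def X (n : ℕ) {m : ℕ} (a : Fin m → ℕ) : Prop := Monotone a ∧ ∀ i, a i ≤ n

/-- The rank. -/
def rk {m : ℕ} (a : Fin m → ℕ) : ℕ := ∑ i, a i

/-- One step. -/
def R (n : ℕ) {m : ℕ} (next : (Fin m → ℕ) → Option (Fin m → ℕ)) (a b : Fin m → ℕ) : Prop :=
  X n a ∧ next a = some b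

/-- The chain of `b`. -/
def Ch (n : ℕ) {m : ℕ} (next : (Fin m → ℕ) → Option (Fin m → ℕ)) (b : Fin m → ℕ) :
    Set (Fin m → ℕ) := {a | Relation.ReflTransGen (R n next) b a}

theorem rk_le (a : Fin m → ℕ) (h : X n a) : rk a ≤ m * n := by
  unfold rk
  calc ∑ i, a i ≤ ∑ _i : Fin m, n := Finset.sum_le_sum fun i _ => h.2 i
    _ = m * n := by simp

section
variable (next : (Fin m → ℕ) → Option (Fin m → ℕ)) (ord : (Fin m → ℕ) → ℤ)
    (hmem : ∀ a b, X n a → next a = some b → X n b ∧ a ≤ b ∧ rk b = rk a + 1 ∧ ord b = ord a)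

include hmem in
theorem path {a b : Fin m → ℕ} (ha : X n a) (h : Relation.ReflTransGen (R n next) a b) :
    X n b ∧ a ≤ b ∧ rk a ≤ rk b ∧ ord b = ord a := by
  induction h with
  | refl => exact ⟨ha, le_rfl, le_rfl, rfl⟩
  | tail _ hbc ih =>
    obtain ⟨h1, h2, h3, h4⟩ := ih
    obtain ⟨g1, g2, g3, g4⟩ := hmem _ _ hbc.1 hbc.2
    exact ⟨g1, h2.trans g2, by omega, by rw [g4, h4]⟩

include hmem in
theorem path_inj {a b : Fin m → ℕ} (ha : X n a) (h : Relation.ReflTransGen (R n next) a b)
    (hr : rk a = rk b) : a = b := by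
  rcases Relation.ReflTransGen.cases_tail h with h1 | ⟨c, hc, hcb⟩
  · exact h1.symm
  · obtain ⟨_, _, h3, _⟩ := path next ord hmem ha hc
    obtain ⟨_, _, g3, _⟩ := hmem _ _ hcb.1 hcb.2
    omega

include hmem in
theorem exists_top : ∀ k : ℕ, ∀ a : Fin m → ℕ, X n a → m * n - rk a = k →
    ∃ t, Relation.ReflTransGen (R n next) a t ∧ next t = none := by
  intro k
  induction k using Nat.strong_induction_on with
  | _ k ih =>
    intro a ha hk
    cases hn : next a with
    | none => exact ⟨a, Relation.ReflTransGen.refl, hn⟩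
    | some b =>
      obtain ⟨g1, g2, g3, g4⟩ := hmem _ _ ha hn
      have hb := rk_le b g1
      obtain ⟨t, ht, htn⟩ := ih (m * n - rk b) (by omega) b g1 rfl
      exact ⟨t, Relation.ReflTransGen.head ⟨ha, hn⟩ ht, htn⟩

include hmem in
theorem fill {b t : Fin m → ℕ} (h : Relation.ReflTransGen (R n next) b t) :
    ∀ k, rk b ≤ k → k ≤ rk t → ∃ a, Relation.ReflTransGen (R n next) b a ∧ rk a = k := by
  induction h with
  | refl => intro k h1 h2; exact ⟨b, Relation.ReflTransGen.refl, by omega⟩
  | @tail c d hbc hcd ih =>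
    intro k h1 h2
    obtain ⟨_, _, g3, _⟩ := hmem _ _ hcd.1 hcd.2
    by_cases hk : k ≤ rk c
    · exact ih k h1 hk
    · exact ⟨d, hbc.tail hcd, by omega⟩

include hmem in
theorem exists_bot : ∀ k : ℕ, ∀ a : Fin m → ℕ, X n a → rk a = k →
    ∃ b, X n b ∧ (¬ ∃ c, X n c ∧ next c = some b) ∧ Relation.ReflTransGen (R n next) b a := by
  intro k
  induction k using Nat.strong_induction_on with
  | _ k ih =>
    intro a ha hk
    by_cases hp : ∃ c, X n c ∧ next c = some a
    · obtain ⟨c, hc, hca⟩ := hp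
      obtain ⟨_, _, g3, _⟩ := hmem _ _ hc hca
      obtain ⟨b, hb, hb', hbc⟩ := ih (rk c) (by omega) c hc rfl
      exact ⟨b, hb, hb', hbc.tail ⟨hc, hca⟩⟩
    · exact ⟨a, ha, hp, Relation.ReflTransGen.refl⟩

end

end NextAux

open NextAux in
/-- `next` is a partial injective successor function on the elements of `L(m,n)`, `ord` is constant
along it and is the length of the chain: an element without successor has `2 rank = mn + ord` and
an element without predecessor has `2 rank + ord = mn` (`ord ≥ 0` follows, by going up to the top and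
down to the bottom of the chain). -/
theorem sco_of_next (m n : ℕ) (next : (Fin m → ℕ) → Option (Fin m → ℕ)) (ord : (Fin m → ℕ) → ℤ)
    (hmem : ∀ a b, (Monotone a ∧ ∀ i, a i ≤ n) → next a = some b →
      (Monotone b ∧ ∀ i, b i ≤ n) ∧ a ≤ b ∧ ∑ i, b i = ∑ i, a i + 1 ∧ ord b = ord a)
    (hinj : ∀ a a' b, (Monotone a ∧ ∀ i, a i ≤ n) → (Monotone a' ∧ ∀ i, a' i ≤ n) →
      next a = some b → next a' = some b → a = a')
    (htop : ∀ a, (Monotone a ∧ ∀ i, a i ≤ n) → next a = none → 2 * ((∑ i, a i : ℕ) : ℤ) = (m : ℤ) * n + ord a)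
    (hbot : ∀ b, (Monotone b ∧ ∀ i, b i ≤ n) →
      (¬ ∃ a, (Monotone a ∧ ∀ i, a i ≤ n) ∧ next a = some b) →
      2 * ((∑ i, b i : ℕ) : ℤ) + ord b = (m : ℤ) * n) :
    SCO m n := by
  have hmem' : ∀ a b, X n a → next a = some b → X n b ∧ a ≤ b ∧ rk b = rk a + 1 ∧ ord b = ord a :=
    fun a b ha hb => hmem a b ha hb
  have hru : Relator.RightUnique (R n next) := by
    intro a b c hab hac
    have h := hab.2.symm.trans hac.2
    exact Option.some.inj h
  have hlu : Relator.RightUnique (Function.swap (R n next)) := by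
    intro a b c hab hac
    exact hinj b c a hab.1 hac.1 hab.2 hac.2
  refine ⟨{C | ∃ b, X n b ∧ (¬ ∃ c, X n c ∧ next c = some b) ∧ C = Ch n next b}, ?_, ?_⟩
  · rintro C ⟨b, hb, hb', rfl⟩
    refine ⟨?_, ?_, ?_, ?_⟩
    · intro a ha
      exact (path next ord hmem' hb ha).1
    · intro a ha a' ha' _
      rcases Relation.ReflTransGen.total_of_right_unique hru ha ha' with h | h
      · exact Or.inl (path next ord hmem' (path next ord hmem' hb ha).1 h).2.1
      · exact Or.inr (path next ord hmem' (path next ord hmem' hb ha').1 h).2.1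
    · intro a ha a' ha' hr
      rcases Relation.ReflTransGen.total_of_right_unique hru ha ha' with h | h
      · exact path_inj next ord hmem' (path next ord hmem' hb ha).1 h hr
      · exact (path_inj next ord hmem' (path next ord hmem' hb ha').1 h hr.symm).symm
    · obtain ⟨t, ht, htn⟩ := exists_top next ord hmem' _ b hb rfl
      obtain ⟨hXt, _, hrt, hot⟩ := path next ord hmem' hb ht
      have h1 : 2 * ((rk t : ℕ) : ℤ) = (m : ℤ) * n + ord t := htop t hXt htn
      have h2 : 2 * ((rk b : ℕ) : ℤ) + ord b = (m : ℤ) * n := hbot b hb hb'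
      have h3 : ((rk t + rk b : ℕ) : ℤ) = ((m * n : ℕ) : ℤ) := by
        push_cast
        rw [hot] at h1
        linarith
      have h4 : rk t + rk b = m * n := by exact_mod_cast h3
      refine ⟨rk b, ?_⟩
      ext k
      constructor
      · rintro ⟨a, ha, rfl⟩
        refine ⟨(path next ord hmem' hb ha).2.2.1, ?_⟩
        have hat : rk a ≤ rk t := by
          rcases Relation.ReflTransGen.total_of_right_unique hru ha ht with h | h
          · exact (path next ord hmem' (path next ord hmem' hb ha).1 h).2.2.1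
          · rcases Relation.ReflTransGen.cases_head h with h5 | ⟨c, hc, _⟩
            · rw [h5]
            · rw [hc.2] at htn
              exact absurd htn (by simp)
        show rk a ≤ m * n - rk b
        omega
      · rintro ⟨hk1, hk2⟩
        obtain ⟨a, ha, hak⟩ := fill next ord hmem' ht k hk1 (by omega)
        exact ⟨a, ha, hak⟩
  · intro a ha1 ha2
    obtain ⟨b, hb, hb', hba⟩ := exists_bot next ord hmem' _ a ⟨ha1, ha2⟩ rfl
    refine ⟨Ch n next b, ⟨⟨b, hb, hb', rfl⟩, hba⟩, ?_⟩
    rintro C ⟨⟨b2, hb2, hb2', rfl⟩, hb2a⟩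
    have hs1 : Relation.ReflTransGen (Function.swap (R n next)) a b := by
      exact Relation.reflTransGen_swap.2 hba
    have hs2 : Relation.ReflTransGen (Function.swap (R n next)) a b2 := by
      exact Relation.reflTransGen_swap.2 hb2a
    have key : b = b2 := by
      rcases Relation.ReflTransGen.total_of_right_unique hlu hs1 hs2 with h | h
      · rcases Relation.ReflTransGen.cases_head h with h5 | ⟨c, hc, _⟩
        · exact h5
        · exact absurd ⟨c, hc.1, hc.2⟩ hb'
      · rcases Relation.ReflTransGen.cases_head h with h5 | ⟨c, hc, _⟩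
        · exact h5.symm
        · exact absurd ⟨c, hc.1, hc.2⟩ hb2'
    rw [key]

end Pool.LS
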